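import Mathlib

/-!
# Kneading sequences are not monotone for C^1-small perturbations of the quadratic family

For every `ε > 0` there is a (even smooth) one-parameter family of unimodal maps at `C^1` distance
less than `ε` from the quadratic family for which `μ ↦ ν(g_μ)` is neither non-decreasing nor
non-increasing.  The family is `g_μ(x) = (μ - 1) - μ q(x)`, where `q(x) = x^2` away from the turning
point and `q(x) = t x^2 / (x^2 + κ)` (almost flat) near it.  For `μ = 2 - (X/4) 4^{-N}` the critical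
value returns to the flat region after `N + 1` steps, and then the sign of the next return changes
in the direction opposite to the one of the quadratic family.
-/

open Real Filter Topology Set
open scoped ENNReal ContDiff

namespace Pool.Agent.Results.MP_ace4dd_an.NonMonotone


/-- `f` belongs to the class `𝒰` and has turning point `c`. -/
structure IsUnimodal (f : ℝ → ℝ) (c : ℝ) : Prop where
  turning_mem : c ∈ Ioo (-1 : ℝ) 1
  continuousOn : ContinuousOn f (Icc (-1) 1)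
  mapsTo : MapsTo f (Icc (-1) 1) (Icc (-1) 1)
  left : f (-1) = -1
  right : f 1 = -1
  increasing : StrictMonoOn f (Icc (-1) c)
  decreasing : StrictAntiOn f (Icc c 1)

/-- `θ_i(x)`: the sign of the derivative of `f^{i+1}` at `x`, as an integer in `{-1,0,1}`. -/
noncomputable def theta (f : ℝ → ℝ) (x : ℝ) (i : ℕ) : ℤ :=
  (SignType.sign (derivWithin (f^[i + 1]) (Icc (-1) 1) x) : ℤ)

/-- `ν` is the kneading sequence of `f`, whose turning point is `c`: every coefficient `θ_i(y)` is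
equal to `ν i` for all `y < f c` close enough to `f c`. -/
def IsKneading (f : ℝ → ℝ) (c : ℝ) (ν : ℕ → ℤ) : Prop :=
  ∀ i, ∀ᶠ y in 𝓝[<] (f c), theta f y i = ν i

/-- lexicographic order on coefficient sequences (strict) -/
def LexLT (a b : ℕ → ℤ) : Prop := ∃ j, (∀ i < j, a i = b i) ∧ a j < b j

/-- lexicographic order on coefficient sequences -/
def LexLE (a b : ℕ → ℤ) : Prop := a = b ∨ LexLT a b

/-- the quadratic family -/
noncomputable def quad (μ x : ℝ) : ℝ := (μ - 1) - μ * x ^ 2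

/-- a one-parameter family `(g_μ)`, `μ ∈ (0,2]` -/
structure IsFamily (g : ℝ → ℝ → ℝ) : Prop where
  unimodal : ∀ μ ∈ Ioc (0 : ℝ) 2, ∃ c, IsUnimodal (g μ) c
  contDiffOn : ContDiffOn ℝ 1 (fun p : ℝ × ℝ => g p.2 p.1) (Icc (-1 : ℝ) 1 ×ˢ Ioc (0 : ℝ) 2)

/-- the `C^1` distance of two families over `[-1,1] × (0,2]` -/
noncomputable def c1Dist (g f : ℝ → ℝ → ℝ) : ℝ≥0∞ :=
  ⨆ x ∈ Icc (-1 : ℝ) 1, ⨆ μ ∈ Ioc (0 : ℝ) 2, ENNReal.ofReal
    (|g μ x - f μ x| + |derivWithin (fun y => g μ y - f μ y) (Icc (-1) 1) x|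
      + |derivWithin (fun l => g l x - f l x) (Ioc 0 2) μ|)

/-- `ν μ` is the kneading sequence of `g μ` for every `μ ∈ (0,2]`. -/
def IsKneadingMap (g : ℝ → ℝ → ℝ) (ν : ℝ → ℕ → ℤ) : Prop :=
  ∀ μ ∈ Ioc (0 : ℝ) 2, ∀ c, IsUnimodal (g μ) c → IsKneading (g μ) c (ν μ)

/-- `μ ↦ ν μ` is non-decreasing or non-increasing on `(0,2]`. -/
def IsMonotone (ν : ℝ → ℕ → ℤ) : Prop :=
  (∀ μ ∈ Ioc (0 : ℝ) 2, ∀ l ∈ Ioc (0 : ℝ) 2, μ ≤ l → LexLE (ν μ) (ν l)) ∨
  (∀ μ ∈ Ioc (0 : ℝ) 2, ∀ l ∈ Ioc (0 : ℝ) 2, μ ≤ l → LexLE (ν l) (ν μ))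

/-! ### generic facts on kneading -/

lemma LexLT.not_le {a b : ℕ → ℤ} (h : LexLT a b) : ¬ LexLE b a := by
  obtain ⟨j, hj, hlt⟩ := h
  rintro (rfl | ⟨k, hk, hk'⟩)
  · exact lt_irrefl _ hlt
  · rcases lt_trichotomy j k with h1 | h1 | h1
    · exact absurd (hk j h1) (ne_of_gt hlt)
    · subst h1; exact absurd (hlt.trans hk') (lt_irrefl _)
    · exact absurd (hj k h1) (ne_of_gt hk')

/-- the coefficients as a product of signs -/
def knead (s : ℕ → SignType) (i : ℕ) : ℤ := ((∏ j ∈ Finset.range (i + 1), (-(s j)) : SignType) : ℤ)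

lemma hasDerivAt_iterate {f f' : ℝ → ℝ} (hf : ∀ x, HasDerivAt f (f' x) x) (n : ℕ) (y : ℝ) :
    HasDerivAt (f^[n]) (∏ j ∈ Finset.range n, f' (f^[j] y)) y := by
  induction n with
  | zero => simpa using hasDerivAt_id y
  | succ n ih =>
    rw [Function.iterate_succ', Finset.prod_range_succ, mul_comm]
    exact (hf _).comp y ih

/-- the eventual sign of `f^[j] y` as `y ↑ v` -/
def EvSign (f : ℝ → ℝ) (v : ℝ) (s : ℕ → SignType) : Prop :=
  ∀ j, ∀ᶠ y in 𝓝[<] v, SignType.sign (f^[j] y) = s j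

lemma theta_eq {f f' : ℝ → ℝ} (hf : ∀ x, HasDerivAt f (f' x) x)
    (hsign : ∀ x, SignType.sign (f' x) = - SignType.sign x) {y : ℝ} (hy : y ∈ Ioo (-1:ℝ) 1)
    (i : ℕ) : theta f y i = ((∏ j ∈ Finset.range (i + 1), (-(SignType.sign (f^[j] y))) : SignType) : ℤ) := by
  unfold theta
  have h1 := hasDerivAt_iterate hf (i + 1) y
  rw [derivWithin_of_mem_nhds (Icc_mem_nhds hy.1 hy.2), h1.deriv]
  congr 1
  have : SignType.sign (∏ j ∈ Finset.range (i + 1), f' (f^[j] y))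
      = ∏ j ∈ Finset.range (i + 1), SignType.sign (f' (f^[j] y)) := by
    exact map_prod (signHom : ℝ →*₀ SignType) _ _
  rw [this]
  exact Finset.prod_congr rfl (fun j _ => hsign _)

lemma isKneading_of_evSign {f f' : ℝ → ℝ} (hf : ∀ x, HasDerivAt f (f' x) x)
    (hsign : ∀ x, SignType.sign (f' x) = - SignType.sign x) {c : ℝ} (hv : f c ∈ Ioc (-1:ℝ) 1)
    {s : ℕ → SignType} (hs : EvSign f (f c) s) : IsKneading f c (knead s) := by
  intro i
  have h1 : ∀ᶠ y in 𝓝[<] (f c), ∀ j ∈ Finset.range (i + 1), SignType.sign (f^[j] y) = s j :=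
    (Filter.eventually_all_finset _).2 (fun j _ => hs j)
  have h2 : ∀ᶠ y in 𝓝[<] (f c), y ∈ Ioo (-1:ℝ) (f c) := Ioo_mem_nhdsLT hv.1
  filter_upwards [h1, h2] with y hy hy2
  rw [theta_eq hf hsign ⟨hy2.1, hy2.2.trans_le hv.2⟩]
  unfold knead
  congr 1
  exact Finset.prod_congr rfl (fun j hj => by rw [hy j hj])

lemma sign_ne_zero_of {f : ℝ → ℝ} {v : ℝ} {s : ℕ → SignType} (hcont : Continuous f)
    (hs : EvSign f v s) {j : ℕ} (hj : f^[j] v ≠ 0) : s j = SignType.sign (f^[j] v) := by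
  have h1 : Tendsto (f^[j]) (𝓝[<] v) (𝓝 (f^[j] v)) :=
    ((hcont.iterate j).tendsto v).mono_left nhdsWithin_le_nhds
  have h2 : ∀ᶠ y in 𝓝[<] v, SignType.sign (f^[j] y) = SignType.sign (f^[j] v) := by
    rcases lt_or_gt_of_ne hj with h | h
    · filter_upwards [h1.eventually (gt_mem_nhds h)] with y hy
      rw [sign_neg hy, sign_neg h]
    · filter_upwards [h1.eventually (lt_mem_nhds h)] with y hy
      rw [sign_pos hy, sign_pos h]
  obtain ⟨y, hy1, hy2⟩ := ((hs j).and h2).exists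
  rw [← hy1, hy2]

/-- existence of eventual signs for a unimodal map -/
lemma exists_evSign {f : ℝ → ℝ} (hcont : Continuous f) (hinc : StrictMonoOn f (Iic 0))
    (hdec : StrictAntiOn f (Ici 0)) (v : ℝ) : ∃ s, EvSign f v s := by
  have key : ∀ j, ∃ a < v, StrictMonoOn (f^[j]) (Icc a v) ∨ StrictAntiOn (f^[j]) (Icc a v) := by
    intro j
    induction j with
    | zero => exact ⟨v - 1, by linarith, Or.inl (by simpa using strictMono_id.strictMonoOn _)⟩
    | succ j ih =>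
      obtain ⟨a, hav, ha⟩ := ih
      -- find a' with image on one side of 0
      have hside : ∃ a' ∈ Ico a v, MapsTo (f^[j]) (Icc a' v) (Iic 0) ∨
          MapsTo (f^[j]) (Icc a' v) (Ici 0) := by
        have hc : ContinuousAt (f^[j]) v := (hcont.iterate j).continuousAt
        rcases lt_trichotomy (f^[j] v) 0 with h | h | h
        · have h1 : ∀ᶠ y in 𝓝 v, f^[j] y < 0 := hc.eventually (gt_mem_nhds h)
          obtain ⟨b, hb, hb2⟩ := Metric.eventually_nhds_iff.1 h1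
          refine ⟨max a (v - b / 2), ⟨le_max_left _ _, max_lt hav (by linarith)⟩, Or.inl ?_⟩
          intro y hy
          have hy1 : v - b / 2 ≤ y := (le_max_right _ _).trans hy.1
          have hy2 : y ≤ v := hy.2
          refine (hb2 ?_).le
          rw [Real.dist_eq, abs_lt]; constructor <;> linarith
        · rcases ha with ha | ha
          · refine ⟨a, ⟨le_rfl, hav⟩, Or.inl ?_⟩
            intro y hy
            have := ha.monotoneOn hy (right_mem_Icc.2 hav.le) hy.2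
            rw [h] at this; exact this
          · refine ⟨a, ⟨le_rfl, hav⟩, Or.inr ?_⟩
            intro y hy
            have := ha.antitoneOn hy (right_mem_Icc.2 hav.le) hy.2
            rw [h] at this; exact this
        · have h1 : ∀ᶠ y in 𝓝 v, 0 < f^[j] y := hc.eventually (lt_mem_nhds h)
          obtain ⟨b, hb, hb2⟩ := Metric.eventually_nhds_iff.1 h1
          refine ⟨max a (v - b / 2), ⟨le_max_left _ _, max_lt hav (by linarith)⟩, Or.inr ?_⟩
          intro y hy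
          have hy1 : v - b / 2 ≤ y := (le_max_right _ _).trans hy.1
          have hy2 : y ≤ v := hy.2
          refine (hb2 ?_).le
          rw [Real.dist_eq, abs_lt]; constructor <;> linarith
      obtain ⟨a', ha', hmap⟩ := hside
      refine ⟨a', ha'.2, ?_⟩
      have hsub : Icc a' v ⊆ Icc a v := Icc_subset_Icc ha'.1 le_rfl
      rw [Function.iterate_succ']
      rcases hmap with hmap | hmap <;> rcases ha with ha | ha
      · exact Or.inl (hinc.comp (ha.mono hsub) hmap)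
      · exact Or.inr (hinc.comp_strictAntiOn (ha.mono hsub) hmap)
      · exact Or.inr (hdec.comp_strictMonoOn (ha.mono hsub) hmap)
      · exact Or.inl (hdec.comp (ha.mono hsub) hmap)
  have key2 : ∀ j, ∃ σ : SignType, ∀ᶠ y in 𝓝[<] v, SignType.sign (f^[j] y) = σ := by
    intro j
    obtain ⟨a, hav, ha⟩ := key j
    have h1 : Tendsto (f^[j]) (𝓝[<] v) (𝓝 (f^[j] v)) :=
      ((hcont.iterate j).tendsto v).mono_left nhdsWithin_le_nhds
    rcases lt_trichotomy (f^[j] v) 0 with h | h | h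
    · refine ⟨-1, ?_⟩
      filter_upwards [h1.eventually (gt_mem_nhds h)] with y hy
      exact sign_neg hy
    · have hIoo : ∀ᶠ y in 𝓝[<] v, y ∈ Ioo a v := Ioo_mem_nhdsLT hav
      rcases ha with ha | ha
      · refine ⟨-1, ?_⟩
        filter_upwards [hIoo] with y hy
        have := ha (Ioo_subset_Icc_self hy) (right_mem_Icc.2 hav.le) hy.2
        rw [h] at this; exact sign_neg this
      · refine ⟨1, ?_⟩
        filter_upwards [hIoo] with y hy
        have := ha (Ioo_subset_Icc_self hy) (right_mem_Icc.2 hav.le) hy.2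
        rw [h] at this; exact sign_pos this
    · refine ⟨1, ?_⟩
      filter_upwards [h1.eventually (lt_mem_nhds h)] with y hy
      exact sign_pos hy
  choose s hs using key2
  exact ⟨s, hs⟩



/-- the map in the coordinate u = 1 + x -/
noncomputable def F (μ u : ℝ) : ℝ := μ * u * (2 - u)

lemma F_two_cos (t : ℝ) : F 2 (1 - cos t) = 1 - cos (2 * t) := by
  unfold F; rw [cos_two_mul]; ring

lemma F_two_iter (n : ℕ) (t : ℝ) : (F 2)^[n] (1 - cos t) = 1 - cos (2 ^ n * t) := by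
  induction n generalizing t with
  | zero => simp
  | succ n ih =>
    rw [Function.iterate_succ_apply, F_two_cos, ih]
    congr 2; ring

lemma tendsto_zero_of_four_pow {x : ℕ → ℝ} {X : ℝ}
    (hx : Tendsto (fun n => 4 ^ n * x n) atTop (𝓝 X)) : Tendsto x atTop (𝓝 0) := by
  have h1 : Tendsto (fun n : ℕ => ((1/4 : ℝ)) ^ n) atTop (𝓝 0) :=
    tendsto_pow_atTop_nhds_zero_of_lt_one (by norm_num) (by norm_num)
  have h2 := h1.mul hx
  rw [zero_mul] at h2
  refine h2.congr (fun n => ?_)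
  rw [← mul_assoc, ← mul_pow]; norm_num

lemma F_two_tendsto {x : ℕ → ℝ} {X : ℝ} (hx0 : ∀ᶠ n in atTop, 0 ≤ x n)
    (hx : Tendsto (fun n => 4 ^ n * x n) atTop (𝓝 X)) :
    Tendsto (fun n => (F 2)^[n] (x n)) atTop (𝓝 (1 - cos (√(2 * X)))) := by
  have hx1 := tendsto_zero_of_four_pow hx
  set θ : ℕ → ℝ := fun n => arccos (1 - x n) with hθ
  have hθ0 : Tendsto θ atTop (𝓝 0) := by
    have : Tendsto (fun n => 1 - x n) atTop (𝓝 (1 - 0)) := tendsto_const_nhds.sub hx1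
    have h2 := (continuous_arccos.tendsto (1 - 0)).comp this
    rw [sub_zero, arccos_one] at h2
    exact h2
  have hcos : ∀ᶠ n in atTop, cos (θ n) = 1 - x n := by
    filter_upwards [hx0, hx1.eventually (gt_mem_nhds (show (0:ℝ) < 2 by norm_num))] with n h1 h2
    exact cos_arccos (by linarith) (by linarith)
  have hsq : Tendsto (fun n => 4 ^ n * (θ n) ^ 2) atTop (𝓝 (2 * X)) := by
    have hup : Tendsto (fun n => (4 ^ n * x n) / (1/2 - 5/96 * (θ n)^2)) atTop
        (𝓝 (X / (1/2 - 5/96 * 0^2))) := by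
      refine hx.div (tendsto_const_nhds.sub ((hθ0.pow 2).const_mul _)) (by norm_num)
    have hlo : Tendsto (fun n => 2 * (4 ^ n * x n)) atTop (𝓝 (2 * X)) := hx.const_mul 2
    have e : X / (1/2 - 5/96 * 0^2) = 2 * X := by norm_num; ring
    rw [e] at hup
    refine tendsto_of_tendsto_of_tendsto_of_le_of_le' hlo hup ?_ ?_
    · filter_upwards [hcos] with n h1
      have := one_sub_sq_div_two_le_cos (x := θ n)
      have h4 : (0:ℝ) < 4 ^ n := by positivity
      nlinarith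
    · have hsmall : ∀ᶠ n in atTop, |θ n| < 1 := by
        have := hθ0.abs
        rw [abs_zero] at this
        exact this.eventually (gt_mem_nhds one_pos)
      filter_upwards [hcos, hsmall] with n h1 h2
      have hb := Real.cos_bound h2.le
      rw [h1] at hb
      have hb' := (abs_le.mp hb).2
      have e2 : |θ n| ^ 4 = (θ n ^ 2) ^ 2 := by
        rw [← abs_pow]; rw [abs_of_nonneg (by positivity)]; ring
      rw [e2] at hb'
      have h3 : θ n ^ 2 ≤ 1 := by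
        have := abs_lt.mp h2
        nlinarith [this.1, this.2]
      have h5 : 0 < 1/2 - 5/96 * (θ n)^2 := by nlinarith
      rw [le_div_iff₀ h5]
      have h4 : (0:ℝ) < 4 ^ n := by positivity
      nlinarith
  have hlin : Tendsto (fun n => 2 ^ n * θ n) atTop (𝓝 (√(2 * X))) := by
    have := (continuous_sqrt.tendsto (2 * X)).comp hsq
    refine this.congr (fun n => ?_)
    have e : (4:ℝ) ^ n * (θ n) ^ 2 = (2 ^ n * θ n) ^ 2 := by
      rw [mul_pow, ← pow_mul, mul_comm n 2, pow_mul]; norm_num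
    simp only [Function.comp]
    rw [e, sqrt_sq]
    exact mul_nonneg (by positivity) (arccos_nonneg _)
  have hfin : Tendsto (fun n => 1 - cos (2 ^ n * θ n)) atTop (𝓝 (1 - cos (√(2 * X)))) :=
    tendsto_const_nhds.sub ((continuous_cos.tendsto _).comp hlin)
  refine hfin.congr' ?_
  filter_upwards [hcos] with n h1
  rw [← F_two_iter, h1]; congr 1; ring

lemma F_nonneg {μ u : ℝ} (hμ : 0 ≤ μ) (h0 : 0 ≤ u) (h1 : u ≤ 2) : 0 ≤ F μ u := by
  unfold F; exact mul_nonneg (mul_nonneg hμ h0) (by linarith)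

lemma F_mono {μ u w : ℝ} (hμ : 0 ≤ μ) (huw : u ≤ w) (hw : w ≤ 1) :
    F μ u ≤ F μ w := by
  unfold F; nlinarith [mul_nonneg hμ (sub_nonneg.2 huw), mul_nonneg (mul_nonneg hμ (sub_nonneg.2 huw)) (show 0 ≤ 2 - u - w by linarith)]

lemma F_eq (μ u : ℝ) : F μ u = (μ / 2) * F 2 u := by unfold F; ring

lemma F_two_scale {l u : ℝ} (hl0 : 0 ≤ l) (hl1 : l ≤ 1) (h0 : 0 ≤ u) :
    l * F 2 u ≤ F 2 (l * u) := by
  unfold F; nlinarith [mul_nonneg (mul_nonneg hl0 h0) (mul_nonneg (sub_nonneg.2 hl1) h0)]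

/-- iterates stay below `4 ^ j * u`, and inside `[0,1]` as long as that is at most one -/
lemma F_iter_bounds {μ u : ℝ} (hμ0 : 0 ≤ μ) (hμ2 : μ ≤ 2) (h0 : 0 ≤ u) (n : ℕ)
    (hn : 4 ^ n * u ≤ 1) : 0 ≤ (F μ)^[n] u ∧ (F μ)^[n] u ≤ 4 ^ n * u := by
  induction n with
  | zero => simpa using h0
  | succ n ih =>
    have h4 : (0:ℝ) < 4 ^ n := by positivity
    have h5 : 0 ≤ 4 ^ n * u := by positivity
    have hn' : 4 ^ n * u ≤ 1 := by
      rw [pow_succ] at hn; nlinarith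
    obtain ⟨i1, i2⟩ := ih hn'
    rw [Function.iterate_succ_apply']
    refine ⟨F_nonneg hμ0 i1 (by linarith), ?_⟩
    rw [pow_succ]
    generalize (F μ)^[n] u = w at i1 i2 ⊢
    show μ * w * (2 - w) ≤ _
    have : μ * w * (2 - w) ≤ 2 * w * 2 := by
      have a1 : μ * w ≤ 2 * w := by nlinarith
      have a2 : 0 ≤ μ * w := by positivity
      nlinarith
    nlinarith

lemma F_iter_compare {μ u : ℝ} (hμ0 : 0 ≤ μ) (hμ2 : μ ≤ 2) (h0 : 0 ≤ u) (n : ℕ)
    (hn : 4 ^ (n - 1) * u ≤ 1) :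
    (μ / 2) ^ n * (F 2)^[n] u ≤ (F μ)^[n] u ∧ (F μ)^[n] u ≤ (F 2)^[n] u := by
  induction n with
  | zero => simp
  | succ n ih =>
    simp only [Nat.add_sub_cancel] at hn
    have hn' : 4 ^ (n - 1) * u ≤ 1 := by
      refine le_trans ?_ hn
      exact mul_le_mul_of_nonneg_right (pow_le_pow_right₀ (by norm_num) (Nat.sub_le _ _)) h0
    obtain ⟨i1, i2⟩ := ih hn'
    obtain ⟨b1, b2⟩ := F_iter_bounds hμ0 hμ2 h0 n hn
    obtain ⟨c1, c2⟩ := F_iter_bounds (μ := 2) (by norm_num) le_rfl h0 n hn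
    rw [Function.iterate_succ_apply', Function.iterate_succ_apply']
    have hl0 : 0 ≤ μ / 2 := by positivity
    have hl1 : μ / 2 ≤ 1 := by linarith
    have hp0 : 0 ≤ (μ / 2) ^ n := by positivity
    have hp1 : (μ / 2) ^ n ≤ 1 := pow_le_one₀ hl0 hl1
    constructor
    · rw [F_eq μ, pow_succ]
      have s1 : (μ / 2) ^ n * F 2 ((F 2)^[n] u) ≤ F 2 ((μ / 2) ^ n * (F 2)^[n] u) :=
        F_two_scale hp0 hp1 c1
      have s2 : F 2 ((μ / 2) ^ n * (F 2)^[n] u) ≤ F 2 ((F μ)^[n] u) :=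
        F_mono (by norm_num) i1 (by linarith)
      calc (μ / 2) ^ n * (μ / 2) * F 2 ((F 2)^[n] u)
          = (μ / 2) * ((μ / 2) ^ n * F 2 ((F 2)^[n] u)) := by ring
        _ ≤ (μ / 2) * F 2 ((F μ)^[n] u) := mul_le_mul_of_nonneg_left (s1.trans s2) hl0
    · rw [F_eq μ]
      have s2 : F 2 ((F μ)^[n] u) ≤ F 2 ((F 2)^[n] u) :=
        F_mono (by norm_num) i2 (by linarith)
      have s3 : 0 ≤ F 2 ((F μ)^[n] u) := F_nonneg (by norm_num) b1 (by linarith)
      calc (μ / 2) * F 2 ((F μ)^[n] u) ≤ 1 * F 2 ((F μ)^[n] u) :=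
            mul_le_mul_of_nonneg_right hl1 s3
        _ ≤ _ := by rw [one_mul]; exact s2

lemma F_tendsto {x μ : ℕ → ℝ} {X : ℝ} (hx0 : ∀ᶠ n in atTop, 0 ≤ x n)
    (hx : Tendsto (fun n => 4 ^ n * x n) atTop (𝓝 X)) (hX : X < 4)
    (hμ0 : ∀ᶠ n in atTop, 0 ≤ μ n) (hμ2 : ∀ᶠ n in atTop, μ n ≤ 2)
    (hμ : Tendsto (fun n => (μ n / 2) ^ n) atTop (𝓝 1)) :
    Tendsto (fun n => (F (μ n))^[n] (x n)) atTop (𝓝 (1 - cos (√(2 * X)))) := by
  have h2 := F_two_tendsto hx0 hx
  have h1 := hμ.mul h2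
  rw [one_mul] at h1
  have hev : ∀ᶠ n in atTop, 4 ^ (n - 1) * x n ≤ 1 := by
    have h4 := hx.eventually (gt_mem_nhds hX)
    filter_upwards [h4, eventually_ge_atTop 1, hx0] with n hn h1n h0n
    obtain ⟨m, rfl⟩ : ∃ m, n = m + 1 := ⟨n - 1, by omega⟩
    simp only [Nat.add_sub_cancel]
    rw [pow_succ] at hn
    nlinarith
  refine tendsto_of_tendsto_of_tendsto_of_le_of_le' h1 h2 ?_ ?_
  · filter_upwards [hx0, hμ0, hμ2, hev] with n a b c d
    exact (F_iter_compare b c a n d).1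
  · filter_upwards [hx0, hμ0, hμ2, hev] with n a b c d
    exact (F_iter_compare b c a n d).2



/-- smooth cutoff at scale `h`: it is `0` for `z ≤ h` and `1` for `z ≥ 2h`. -/
noncomputable def A (h z : ℝ) : ℝ := smoothTransition (z / h - 1)

/-- the perturbed profile: `x^2` away from the turning point, and `t * x^2 / (x^2 + κ)` near it. -/
noncomputable def q (h κ t x : ℝ) : ℝ :=
  A h (x ^ 2) * x ^ 2 + (1 - A h (x ^ 2)) * (t * (x ^ 2 / (x ^ 2 + κ)))

/-- derivative of the profile in the variable `z = x^2` -/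
noncomputable def Q' (h κ t z : ℝ) : ℝ :=
  A h z + deriv smoothTransition (z / h - 1) * (1 / h) * (z - t * (z / (z + κ)))
    + (1 - A h z) * (t * (κ / (z + κ) ^ 2))

lemma exists_bound_deriv_smoothTransition :
    ∃ L : ℝ, 0 ≤ L ∧ ∀ y, |deriv smoothTransition y| ≤ L := by
  have hcont : Continuous (deriv smoothTransition) :=
    (smoothTransition.contDiff (n := 1)).continuous_deriv le_rfl
  obtain ⟨L, hL⟩ := (isCompact_Icc (a := (-1:ℝ)) (b := 2)).exists_bound_of_continuousOn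
    hcont.continuousOn
  refine ⟨max L 0, le_max_right _ _, fun y => ?_⟩
  rcases lt_or_ge y (-1) with h1 | h1
  · have : smoothTransition =ᶠ[𝓝 y] fun _ => 0 := by
      filter_upwards [gt_mem_nhds h1] with z hz
      exact smoothTransition.zero_of_nonpos (by linarith)
    rw [this.deriv_eq]; simp
  rcases lt_or_ge 2 y with h2 | h2
  · have : smoothTransition =ᶠ[𝓝 y] fun _ => 1 := by
      filter_upwards [lt_mem_nhds h2] with z hz
      exact smoothTransition.one_of_one_le (by linarith)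
    rw [this.deriv_eq]; simp
  · exact (hL y ⟨h1, h2⟩).trans (le_max_left _ _)

lemma deriv_smoothTransition_nonneg (y : ℝ) : 0 ≤ deriv smoothTransition y :=
  smoothTransition.monotone.deriv_nonneg

lemma deriv_smoothTransition_zero {y : ℝ} (hy : 1 < y) : deriv smoothTransition y = 0 := by
  have : smoothTransition =ᶠ[𝓝 y] fun _ => 1 := by
    filter_upwards [lt_mem_nhds hy] with z hz
    exact smoothTransition.one_of_one_le (by linarith)
  rw [this.deriv_eq]; simp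

section
variable {h κ t : ℝ} (hh : 0 < h) (hκ : 0 < κ) (ht : 0 < t) (htκ : t ≤ κ)

lemma A_nonneg (h z : ℝ) : 0 ≤ A h z := smoothTransition.nonneg _
lemma A_le_one (h z : ℝ) : A h z ≤ 1 := smoothTransition.le_one _

include hh in
lemma A_eq_zero {z : ℝ} (hz : z ≤ h) : A h z = 0 := by
  apply smoothTransition.zero_of_nonpos
  have : z / h ≤ 1 := (div_le_one hh).2 hz
  linarith

include hh in
lemma A_eq_one {z : ℝ} (hz : 2 * h ≤ z) : A h z = 1 := by
  apply smoothTransition.one_of_one_le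
  have : 2 ≤ z / h := (le_div_iff₀ hh).2 hz
  linarith

include hh hκ in
lemma q_hasDerivAt (t x : ℝ) : HasDerivAt (q h κ t) (2 * x * Q' h κ t (x ^ 2)) x := by
  have hz : x ^ 2 + κ ≠ 0 := by positivity
  have hx2 : HasDerivAt (fun x : ℝ => x ^ 2) (2 * x) x := by
    simpa using hasDerivAt_pow 2 x
  have hst : HasDerivAt smoothTransition (deriv smoothTransition (x ^ 2 / h - 1)) (x ^ 2 / h - 1) :=
    ((smoothTransition.contDiff (n := 1)).differentiable one_ne_zero _).hasDerivAt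
  have hA : HasDerivAt (fun x : ℝ => A h (x ^ 2))
      (deriv smoothTransition (x ^ 2 / h - 1) * (2 * x / h)) x := by
    have := hst.comp x ((hx2.div_const h).sub_const 1)
    exact this
  have hS : HasDerivAt (fun x : ℝ => t * (x ^ 2 / (x ^ 2 + κ)))
      (t * ((2 * x * (x ^ 2 + κ) - x ^ 2 * (2 * x)) / (x ^ 2 + κ) ^ 2)) x :=
    (hx2.div (hx2.add_const κ) hz).const_mul t
  have := (hA.mul hx2).add (((hasDerivAt_const x (1:ℝ)).sub hA).mul hS)
  unfold q
  refine this.congr_deriv ?_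
  simp only [Pi.sub_apply]
  unfold Q'
  generalize deriv smoothTransition (x ^ 2 / h - 1) = D
  generalize A h (x ^ 2) = B
  field_simp
  ring

include hκ in
lemma q_contDiff (t : ℝ) {n : ℕ∞} : ContDiff ℝ n (q h κ t) := by
  unfold q A
  have h2 : ContDiff ℝ n (fun x : ℝ => x ^ 2) := contDiff_id.pow 2
  have hA : ContDiff ℝ n (fun x : ℝ => smoothTransition (x ^ 2 / h - 1)) :=
    smoothTransition.contDiff.comp ((h2.div_const h).sub contDiff_const)
  have hS : ContDiff ℝ n (fun x : ℝ => t * (x ^ 2 / (x ^ 2 + κ))) :=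
    contDiff_const.mul (h2.div (h2.add contDiff_const) (fun x => by positivity))
  exact (hA.mul h2).add ((contDiff_const.sub hA).mul hS)

include hκ htκ in
lemma tS_le {z : ℝ} (hz : 0 ≤ z) : t * (z / (z + κ)) ≤ z := by
  rw [mul_div_assoc', div_le_iff₀ (by positivity)]
  nlinarith [mul_nonneg hz (sub_nonneg.2 htκ)]

include hh hκ ht htκ in
lemma Q'_pos {z : ℝ} (hz : 0 ≤ z) : 0 < Q' h κ t z := by
  have hzκ : 0 < z + κ := by positivity
  have h1 : 0 ≤ deriv smoothTransition (z / h - 1) * (1 / h) * (z - t * (z / (z + κ))) :=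
    mul_nonneg (mul_nonneg (deriv_smoothTransition_nonneg _) (by positivity))
      (sub_nonneg.2 (tS_le hκ htκ hz))
  have h2 : 0 < t * (κ / (z + κ) ^ 2) := by positivity
  unfold Q'
  rcases (A_nonneg h z).eq_or_lt with h0 | h0
  · rw [← h0]; linarith
  · have h3 : 0 ≤ (1 - A h z) * (t * (κ / (z + κ) ^ 2)) :=
      mul_nonneg (sub_nonneg.2 (A_le_one h z)) h2.le
    linarith

include hh hκ ht htκ in
lemma Q'_sub_one_le {L : ℝ} (hL0 : 0 ≤ L) (hL : ∀ y, |deriv smoothTransition y| ≤ L)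
    {z : ℝ} (hz : 0 ≤ z) (hz2 : z ≤ 2 * h) : |Q' h κ t z - 1| ≤ 2 + 2 * L := by
  have hzκ : 0 < z + κ := by positivity
  have hd0 := deriv_smoothTransition_nonneg (z / h - 1)
  have hd1 : deriv smoothTransition (z / h - 1) ≤ L := (le_abs_self _).trans (hL _)
  have hs0 : 0 ≤ z - t * (z / (z + κ)) := sub_nonneg.2 (tS_le hκ htκ hz)
  have hs1 : z - t * (z / (z + κ)) ≤ z := by
    have : 0 ≤ t * (z / (z + κ)) := by positivity
    linarith
  have h1 : 0 ≤ deriv smoothTransition (z / h - 1) * (1 / h) * (z - t * (z / (z + κ))) := by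
    positivity
  have h1' : deriv smoothTransition (z / h - 1) * (1 / h) * (z - t * (z / (z + κ))) ≤ 2 * L := by
    calc deriv smoothTransition (z / h - 1) * (1 / h) * (z - t * (z / (z + κ)))
        ≤ L * (1 / h) * (2 * h) := by gcongr; linarith
      _ = 2 * L := by field_simp
  have h2 : 0 ≤ t * (κ / (z + κ) ^ 2) := by positivity
  have h2' : t * (κ / (z + κ) ^ 2) ≤ 1 := by
    rw [mul_div_assoc', div_le_one (by positivity)]
    nlinarith
  have hA0 := A_nonneg h z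
  have hA1 := A_le_one h z
  have h3 : 0 ≤ (1 - A h z) * (t * (κ / (z + κ) ^ 2)) := mul_nonneg (by linarith) h2
  have h3' : (1 - A h z) * (t * (κ / (z + κ) ^ 2)) ≤ 1 := by nlinarith
  unfold Q'
  rw [abs_le]; constructor <;> linarith

include hh in
lemma q_eq_sq {x : ℝ} (hx : 2 * h ≤ x ^ 2) : q h κ t x = x ^ 2 := by
  unfold q; rw [A_eq_one hh hx]; ring

include hh in
lemma q_eq_small {x : ℝ} (hx : x ^ 2 ≤ h) : q h κ t x = t * (x ^ 2 / (x ^ 2 + κ)) := by
  unfold q; rw [A_eq_zero hh hx]; ring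

include hh in
lemma q_zero : q h κ t 0 = 0 := by
  rw [q_eq_small hh (by simp [hh.le])]; simp

include hκ ht in
lemma q_nonneg (h x : ℝ) : 0 ≤ q h κ t x := by
  unfold q
  have h0 := A_nonneg h (x ^ 2)
  have h1 := A_le_one h (x ^ 2)
  have h2 : 0 ≤ t * (x ^ 2 / (x ^ 2 + κ)) := by positivity
  have := mul_nonneg (sub_nonneg.2 h1) h2
  positivity

include hκ htκ in
lemma q_le_sq (h x : ℝ) : q h κ t x ≤ x ^ 2 := by
  unfold q
  have h0 := A_nonneg h (x ^ 2)
  have h1 := A_le_one h (x ^ 2)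
  have h2 : t * (x ^ 2 / (x ^ 2 + κ)) ≤ x ^ 2 := tS_le hκ htκ (by positivity)
  nlinarith [mul_nonneg (sub_nonneg.2 h1) (sub_nonneg.2 h2)]

include hh hκ ht htκ in
lemma q_sub_sq_le (x : ℝ) : |q h κ t x - x ^ 2| ≤ 2 * h := by
  rcases le_total (2 * h) (x ^ 2) with h1 | h1
  · rw [q_eq_sq hh h1]; simp; exact hh.le
  · have := q_nonneg hκ ht h x
    have := q_le_sq hκ htκ h x
    rw [abs_le]; constructor <;> nlinarith [sq_nonneg x]

include hh hκ ht htκ in
lemma dq_sub_le {L : ℝ} (hL0 : 0 ≤ L) (hL : ∀ y, |deriv smoothTransition y| ≤ L)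
    (x : ℝ) : |2 * x * Q' h κ t (x ^ 2) - 2 * x| ≤ 4 * √(2 * h) * (1 + L) := by
  rcases le_or_gt (x ^ 2) (2 * h) with h1 | h1
  · have e : 2 * x * Q' h κ t (x ^ 2) - 2 * x = 2 * x * (Q' h κ t (x ^ 2) - 1) := by ring
    rw [e, abs_mul]
    have h2 := Q'_sub_one_le hh hκ ht htκ hL0 hL (sq_nonneg x) h1
    have h3 : |x| ≤ √(2 * h) := Real.abs_le_sqrt h1
    rw [abs_mul, abs_two]
    calc 2 * |x| * |Q' h κ t (x ^ 2) - 1| ≤ 2 * √(2 * h) * (2 + 2 * L) := by gcongr
      _ = _ := by ring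
  · have hA : A h (x ^ 2) = 1 := A_eq_one hh h1.le
    have hd : deriv smoothTransition (x ^ 2 / h - 1) = 0 := by
      apply deriv_smoothTransition_zero
      have : 2 < x ^ 2 / h := (lt_div_iff₀ hh).2 h1
      linarith
    have : Q' h κ t (x ^ 2) = 1 := by unfold Q'; rw [hA, hd]; ring
    rw [this]; simp; positivity

include hh hκ ht htκ in
lemma q_strictMonoOn : StrictMonoOn (q h κ t) (Ici 0) := by
  apply strictMonoOn_of_deriv_pos (convex_Ici 0) (q_contDiff (h := h) hκ t (n := 1)).continuous.continuousOn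
  intro x hx
  rw [interior_Ici] at hx
  rw [(q_hasDerivAt hh hκ t x).deriv]
  have hx' : 0 < x := hx
  have := Q'_pos hh hκ ht htκ (sq_nonneg x)
  positivity

lemma q_even (h κ t x : ℝ) : q h κ t (-x) = q h κ t x := by unfold q; simp

include hh hκ ht htκ in
lemma q_strictAntiOn : StrictAntiOn (q h κ t) (Iic 0) := by
  intro x hx y hy hxy
  rw [← q_even h κ t x, ← q_even h κ t y]
  simp only [mem_Iic] at hx hy
  exact q_strictMonoOn hh hκ ht htκ (by simpa using hy) (by simpa using hx) (by linarith)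

end


/-! ### the perturbed family and its orbits -/

/-- the perturbed family -/
noncomputable def g (h κ t μ x : ℝ) : ℝ := (μ - 1) - μ * q h κ t x

section
variable {h κ t μ : ℝ}

lemma g_eq_F (hh : 0 < h) {x : ℝ} (hx : 2 * h ≤ x ^ 2) : g h κ t μ x = F μ (x + 1) - 1 := by
  unfold g F; rw [q_eq_sq hh hx]; ring

lemma g_iter (hh : 0 < h) (hh8 : h ≤ 1 / 8) (hμ0 : 0 ≤ μ) (hμ2 : μ ≤ 2) {w : ℝ} (hw : 0 ≤ w) (N : ℕ)
    (hN : 4 ^ (N - 1) * w ≤ 1 / 2) : ∀ k ≤ N, (g h κ t μ)^[k] (w - 1) = (F μ)^[k] w - 1 := by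
  intro k
  induction k with
  | zero => intro _; simp
  | succ k ih =>
    intro hk
    have h1 := ih (by omega)
    have hle : (4:ℝ) ^ k * w ≤ 1 / 2 := by
      refine le_trans ?_ hN
      exact mul_le_mul_of_nonneg_right (pow_le_pow_right₀ (by norm_num) (by omega)) hw
    obtain ⟨b1, b2⟩ := F_iter_bounds hμ0 hμ2 hw k (by linarith)
    rw [Function.iterate_succ_apply', Function.iterate_succ_apply', h1, g_eq_F hh]
    · congr 2; ring
    · nlinarith

lemma block (hh : 0 < h) (hh8 : h ≤ 1 / 8) (hμ0 : 0 ≤ μ) (hμ2 : μ ≤ 2) {p : ℝ}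
    (hp : 1 / 2 ≤ μ * (1 - p) - 1) (hp0 : 0 ≤ p) (N : ℕ)
    (hN : 4 ^ (N - 1) * F μ (μ * (1 - p)) ≤ 1 / 2) :
    (g h κ t μ)^[N + 1] (μ - 1 - μ * p) = (F μ)^[N] (F μ (μ * (1 - p))) - 1 ∧
    (∀ j, 1 ≤ j → j ≤ N → (g h κ t μ)^[j] (μ - 1 - μ * p) < 0) ∧ 0 < μ - 1 - μ * p := by
  have hw : 0 ≤ F μ (μ * (1 - p)) := F_nonneg hμ0 (by linarith) (by nlinarith)
  have h0 : g h κ t μ (μ - 1 - μ * p) = F μ (μ * (1 - p)) - 1 := by
    rw [g_eq_F hh]
    · congr 2; ring
    · have : μ - 1 - μ * p = μ * (1 - p) - 1 := by ring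
      rw [this]; nlinarith
  refine ⟨?_, ?_, by linarith⟩
  · rw [Function.iterate_succ_apply, h0]
    exact g_iter hh hh8 hμ0 hμ2 hw N hN N le_rfl
  · intro j hj1 hjN
    obtain ⟨k, rfl⟩ : ∃ k, j = k + 1 := ⟨j - 1, by omega⟩
    rw [Function.iterate_succ_apply, h0, g_iter hh hh8 hμ0 hμ2 hw N hN k (by omega)]
    have hle : (4:ℝ) ^ k * F μ (μ * (1 - p)) ≤ 1 / 2 := by
      refine le_trans ?_ hN
      exact mul_le_mul_of_nonneg_right (pow_le_pow_right₀ (by norm_num) (by omega)) hw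
    obtain ⟨b1, b2⟩ := F_iter_bounds hμ0 hμ2 hw k (by linarith)
    linarith

/-- The signs of the critical orbit in the two-return situation. -/
lemma orbit_signs (hh : 0 < h) (hh8 : h ≤ 1 / 8) (hμ0 : 0 ≤ μ) (hμ2 : μ ≤ 2) (N : ℕ)
    (hv : 1 / 2 ≤ μ - 1) (hN : 4 ^ (N - 1) * F μ μ ≤ 1 / 2) {a : ℝ}
    (ha : a = (F μ)^[N] (F μ μ) - 1) (ha0 : a < 0)
    (hq0 : 0 ≤ q h κ t a) (hp : 1 / 2 ≤ μ * (1 - q h κ t a) - 1)
    (hN2 : 4 ^ (N - 1) * F μ (μ * (1 - q h κ t a)) ≤ 1 / 2) :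
    (∀ j, j ≤ 2 * N + 2 → SignType.sign ((g h κ t μ)^[j] (μ - 1)) =
      if j = 0 ∨ j = N + 2 then 1 else -1) ∧
    (g h κ t μ)^[2 * N + 3] (μ - 1) = (F μ)^[N] (F μ (μ * (1 - q h κ t a))) - 1 := by
  obtain ⟨b1, b2, b3⟩ := block (κ := κ) (t := t) hh hh8 hμ0 hμ2 (p := 0) (by linarith) le_rfl N
    (by simpa using hN)
  obtain ⟨c1, c2, c3⟩ := block (κ := κ) (t := t) hh hh8 hμ0 hμ2 hp hq0 N hN2
  simp only [mul_zero, sub_zero, mul_one] at b1 b2 b3
  rw [← ha] at b1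
  have hga : g h κ t μ a = μ - 1 - μ * q h κ t a := rfl
  have hshift : ∀ j, (g h κ t μ)^[N + 2 + j] (μ - 1) = (g h κ t μ)^[j] (μ - 1 - μ * q h κ t a) := by
    intro j
    rw [show N + 2 + j = j + (N + 2) by ring, Function.iterate_add_apply,
      Function.iterate_succ_apply', b1, hga]
  constructor
  · intro j hj
    rcases Nat.eq_zero_or_pos j with rfl | hjpos
    · simp only [Function.iterate_zero, id, true_or, if_true]; exact sign_pos b3
    rcases Nat.lt_or_ge j (N + 1) with h1 | h1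
    · rw [if_neg (by omega)]; exact sign_neg (b2 j hjpos (by omega))
    rcases Nat.lt_or_ge j (N + 2) with h2 | h2
    · have : j = N + 1 := by omega
      subst this
      rw [if_neg (by omega), b1]; exact sign_neg ha0
    obtain ⟨k, rfl⟩ : ∃ k, j = N + 2 + k := ⟨j - (N + 2), by omega⟩
    rw [hshift]
    rcases Nat.eq_zero_or_pos k with rfl | hk
    · simp only [Function.iterate_zero, id, add_zero, or_true, if_true]; exact sign_pos c3
    · rw [if_neg (by omega)]; exact sign_neg (c2 k hk (by omega))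
  · rw [show 2 * N + 3 = N + 2 + (N + 1) by ring, hshift, c1]

end

/-! ### limits -/

noncomputable def mu (X : ℝ) (N : ℕ) : ℝ := 2 - X / 4 * (1 / 4) ^ N

lemma tendsto_quarter : Tendsto (fun N : ℕ => ((1:ℝ) / 4) ^ N) atTop (𝓝 0) :=
  tendsto_pow_atTop_nhds_zero_of_lt_one (by norm_num) (by norm_num)

lemma mu_tendsto (X : ℝ) : Tendsto (mu X) atTop (𝓝 2) := by
  have := (tendsto_const_nhds (x := (2:ℝ))).sub (tendsto_quarter.const_mul (X / 4))
  rw [mul_zero, sub_zero] at this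
  exact this

lemma mu_le {X : ℝ} (hX : 0 ≤ X) (N : ℕ) : mu X N ≤ 2 := by
  unfold mu; have : 0 ≤ X / 4 * (1 / 4) ^ N := by positivity
  linarith

lemma mu_pow_tendsto {X : ℝ} (hX : 0 ≤ X) :
    Tendsto (fun N => (mu X N / 2) ^ N) atTop (𝓝 1) := by
  have h1 : Tendsto (fun N : ℕ => 1 + (N:ℝ) * (-(X / 8 * (1 / 4) ^ N))) atTop (𝓝 1) := by
    have h2 : Tendsto (fun N : ℕ => (N:ℝ) * (1 / 4) ^ N) atTop (𝓝 0) :=
      tendsto_self_mul_const_pow_of_lt_one (by norm_num) (by norm_num)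
    have := (tendsto_const_nhds (x := (1:ℝ))).sub (h2.const_mul (X / 8))
    simp only [mul_zero, sub_zero] at this
    refine this.congr (fun N => ?_)
    ring
  refine tendsto_of_tendsto_of_tendsto_of_le_of_le' h1 tendsto_const_nhds ?_ ?_
  · have h0 : ∀ᶠ N in atTop, 0 < mu X N := (mu_tendsto X).eventually (lt_mem_nhds (by norm_num))
    filter_upwards [h0] with N hN
    have e : mu X N / 2 = 1 + (-(X / 8 * (1 / 4) ^ N)) := by unfold mu; ring
    rw [e]
    apply one_add_mul_le_pow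
    have : 0 < mu X N / 2 := by positivity
    linarith
  · have h0 : ∀ᶠ N in atTop, 0 < mu X N := (mu_tendsto X).eventually (lt_mem_nhds (by norm_num))
    filter_upwards [h0] with N hN
    exact pow_le_one₀ (by positivity) (by have := mu_le hX N; linarith)

lemma w_tendsto {X P : ℝ} {p : ℕ → ℝ} (hp : Tendsto (fun N => 4 ^ N * p N) atTop (𝓝 P)) :
    Tendsto (fun N => 4 ^ N * F (mu X N) (mu X N * (1 - p N))) atTop (𝓝 (X + 8 * P)) := by
  have hp0 := tendsto_zero_of_four_pow hp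
  have hmu := mu_tendsto X
  have h1 : Tendsto (fun N => (mu X N) ^ 2 * (1 - p N) * (X / 4 + mu X N * (4 ^ N * p N))) atTop
      (𝓝 (2 ^ 2 * (1 - 0) * (X / 4 + 2 * P))) :=
    ((hmu.pow 2).mul (tendsto_const_nhds.sub hp0)).mul (tendsto_const_nhds.add (hmu.mul hp))
  have e : (2:ℝ) ^ 2 * (1 - 0) * (X / 4 + 2 * P) = X + 8 * P := by ring
  rw [e] at h1
  refine h1.congr (fun N => ?_)
  have h4 : (4:ℝ) ^ N * (1 / 4) ^ N = 1 := by rw [← mul_pow]; norm_num
  unfold F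
  have e2 : (4:ℝ) ^ N * (2 - mu X N * (1 - p N)) = X / 4 + mu X N * (4 ^ N * p N) := by
    have : (4:ℝ) ^ N * (2 - mu X N) = X / 4 := by
      unfold mu
      calc (4:ℝ) ^ N * (2 - (2 - X / 4 * (1 / 4) ^ N)) = X / 4 * (4 ^ N * (1 / 4) ^ N) := by ring
        _ = X / 4 := by rw [h4, mul_one]
    linear_combination this
  rw [← e2]; ring

lemma return_tendsto {X P : ℝ} (hX : 0 ≤ X) (hXP : X + 8 * P < 2) {p : ℕ → ℝ}
    (hp : Tendsto (fun N => 4 ^ N * p N) atTop (𝓝 P)) (hp0 : ∀ᶠ N in atTop, 0 ≤ p N) :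
    Tendsto (fun N => (F (mu X N))^[N] (F (mu X N) (mu X N * (1 - p N)))) atTop
      (𝓝 (1 - cos (√(2 * (X + 8 * P))))) ∧
    (∀ᶠ N in atTop, 1 / 2 ≤ mu X N * (1 - p N) - 1 ∧
      4 ^ (N - 1) * F (mu X N) (mu X N * (1 - p N)) ≤ 1 / 2) := by
  have hw := w_tendsto (X := X) hp
  have hpz := tendsto_zero_of_four_pow hp
  have hmu := mu_tendsto X
  have h1 : Tendsto (fun N => mu X N * (1 - p N) - 1) atTop (𝓝 (2 * (1 - 0) - 1)) :=
    (hmu.mul (tendsto_const_nhds.sub hpz)).sub_const 1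
  have h2 : ∀ᶠ N in atTop, 1 / 2 < mu X N * (1 - p N) - 1 :=
    h1.eventually (lt_mem_nhds (by norm_num))
  have h3 : ∀ᶠ N in atTop, 4 ^ N * F (mu X N) (mu X N * (1 - p N)) < 2 :=
    hw.eventually (gt_mem_nhds hXP)
  have hm0 : ∀ᶠ N in atTop, 0 < mu X N := hmu.eventually (lt_mem_nhds (by norm_num))
  have hnn : ∀ᶠ N in atTop, 0 ≤ F (mu X N) (mu X N * (1 - p N)) := by
    filter_upwards [h2, hm0, hp0] with N a b c
    have := mu_le hX N
    exact F_nonneg b.le (by linarith) (by nlinarith)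
  constructor
  · exact F_tendsto hnn hw (by linarith) (hm0.mono (fun _ h => h.le))
      (Eventually.of_forall (mu_le hX)) (mu_pow_tendsto hX)
  · filter_upwards [h2, h3, eventually_ge_atTop 1] with N a b c
    refine ⟨a.le, ?_⟩
    obtain ⟨m, rfl⟩ : ∃ m, N = m + 1 := ⟨N - 1, by omega⟩
    simp only [Nat.add_sub_cancel]
    rw [pow_succ] at b
    nlinarith


/-! ### the perturbed family satisfies the requirements -/

section
variable {h κ t : ℝ}

lemma g_hasDerivAt (hh : 0 < h) (hκ : 0 < κ) (μ x : ℝ) :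
    HasDerivAt (g h κ t μ) (-(μ * (2 * x * Q' h κ t (x ^ 2)))) x := by
  have := ((q_hasDerivAt hh hκ t x).const_mul μ).const_sub (μ - 1)
  exact this

lemma g_deriv_sign (hh : 0 < h) (hκ : 0 < κ) (ht : 0 < t) (htκ : t ≤ κ) {μ : ℝ} (hμ : 0 < μ)
    (x : ℝ) : SignType.sign (-(μ * (2 * x * Q' h κ t (x ^ 2)))) = - SignType.sign x := by
  have hQ := Q'_pos hh hκ ht htκ (sq_nonneg x)
  rw [Left.sign_neg]
  congr 1
  rw [sign_mul, sign_mul, sign_mul, sign_pos hμ, sign_pos hQ, sign_pos (zero_lt_two' ℝ)]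
  simp

lemma g_strictMonoOn (hh : 0 < h) (hκ : 0 < κ) (ht : 0 < t) (htκ : t ≤ κ) {μ : ℝ} (hμ : 0 < μ) :
    StrictMonoOn (g h κ t μ) (Iic 0) := by
  intro x hx y hy hxy
  have := q_strictAntiOn hh hκ ht htκ hx hy hxy
  unfold g; nlinarith

lemma g_strictAntiOn (hh : 0 < h) (hκ : 0 < κ) (ht : 0 < t) (htκ : t ≤ κ) {μ : ℝ} (hμ : 0 < μ) :
    StrictAntiOn (g h κ t μ) (Ici 0) := by
  intro x hx y hy hxy
  have := q_strictMonoOn hh hκ ht htκ hx hy hxy
  unfold g; nlinarith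

lemma g_continuous (hκ : 0 < κ) (μ : ℝ) : Continuous (g h κ t μ) := by
  unfold g
  exact continuous_const.sub (continuous_const.mul (q_contDiff hκ t (n := 1)).continuous)

lemma g_unimodal (hh : 0 < h) (hh8 : h ≤ 1 / 8) (hκ : 0 < κ) (ht : 0 < t) (htκ : t ≤ κ) {μ : ℝ}
    (hμ : μ ∈ Ioc (0:ℝ) 2) : IsUnimodal (g h κ t μ) 0 where
  turning_mem := ⟨by norm_num, by norm_num⟩
  continuousOn := (g_continuous hκ μ).continuousOn
  mapsTo := by
    intro x hx
    have h0 := q_nonneg hκ ht h x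
    have h1 := q_le_sq hκ htκ h x
    have h2 : x ^ 2 ≤ 1 := by
      have := hx.1; have := hx.2
      nlinarith
    have := hμ.1; have := hμ.2
    unfold g
    constructor <;> nlinarith
  left := by
    unfold g; rw [q_eq_sq hh (by norm_num; linarith)]; ring
  right := by
    unfold g; rw [q_eq_sq hh (by norm_num; linarith)]; ring
  increasing := (g_strictMonoOn hh hκ ht htκ hμ.1).mono Icc_subset_Iic_self
  decreasing := (g_strictAntiOn hh hκ ht htκ hμ.1).mono Icc_subset_Ici_self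

lemma unimodal_unique {f : ℝ → ℝ} {c d : ℝ} (hc : IsUnimodal f c) (hd : IsUnimodal f d) : c = d := by
  have key : ∀ {c d : ℝ}, IsUnimodal f c → IsUnimodal f d → ¬ c < d := by
    intro c d hc hd hlt
    have h1 : f d < f c := hc.decreasing ⟨le_rfl, hc.turning_mem.2.le⟩
      ⟨hlt.le, hd.turning_mem.2.le⟩ hlt
    have h2 : f c < f d := hd.increasing ⟨hc.turning_mem.1.le, hlt.le⟩
      ⟨hd.turning_mem.1.le, le_rfl⟩ hlt
    exact lt_asymm h1 h2
  exact le_antisymm (not_lt.1 (key hd hc)) (not_lt.1 (key hc hd))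

lemma g_contDiff (hκ : 0 < κ) {n : ℕ∞} :
    ContDiff ℝ n (fun p : ℝ × ℝ => g h κ t p.2 p.1) := by
  unfold g
  exact (contDiff_snd.sub contDiff_const).sub
    (contDiff_snd.mul ((q_contDiff hκ t).comp contDiff_fst))

lemma g_c1Dist (hh : 0 < h) (hκ : 0 < κ) (ht : 0 < t) (htκ : t ≤ κ) {L : ℝ}
    (hL0 : 0 ≤ L) (hL : ∀ y, |deriv smoothTransition y| ≤ L) :
    c1Dist (g h κ t) quad ≤ ENNReal.ofReal (6 * h + 8 * √(2 * h) * (1 + L)) := by
  unfold c1Dist
  refine iSup₂_le fun x hx => iSup₂_le fun μ hμ => ENNReal.ofReal_le_ofReal ?_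
  have hq := q_sub_sq_le hh hκ ht htκ x
  have hdq := dq_sub_le hh hκ ht htκ hL0 hL x
  have e1 : g h κ t μ x - quad μ x = -(μ * (q h κ t x - x ^ 2)) := by unfold g quad; ring
  have e2 : derivWithin (fun y => g h κ t μ y - quad μ y) (Icc (-1) 1) x
      = -(μ * (2 * x * Q' h κ t (x ^ 2) - 2 * x)) := by
    have h1 : HasDerivAt (fun y => g h κ t μ y - quad μ y)
        (-(μ * (2 * x * Q' h κ t (x ^ 2) - 2 * x))) x := by
      have hx2 : HasDerivAt (fun x : ℝ => x ^ 2) (2 * x) x := by simpa using hasDerivAt_pow 2 x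
      have := (g_hasDerivAt (t := t) hh hκ μ x).sub ((hx2.const_mul μ).const_sub (μ - 1))
      refine (this.congr_deriv ?_)
      ring
    exact h1.hasDerivWithinAt.derivWithin (uniqueDiffOn_Icc (by norm_num) x hx)
  have e3 : derivWithin (fun l => g h κ t l x - quad l x) (Ioc 0 2) μ
      = -(q h κ t x - x ^ 2) := by
    have h1 : HasDerivAt (fun l => g h κ t l x - quad l x) (-(q h κ t x - x ^ 2)) μ := by
      have e : (fun l => g h κ t l x - quad l x) = fun l => l * (-(q h κ t x - x ^ 2)) := by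
        funext l; unfold g quad; ring
      rw [e]
      have := (hasDerivAt_id μ).mul_const (-(q h κ t x - x ^ 2))
      rw [one_mul] at this
      exact this
    exact h1.hasDerivWithinAt.derivWithin (uniqueDiffOn_Ioc 0 2 μ hμ)
  rw [e1, e2, e3, abs_neg, abs_neg, abs_neg, abs_mul, abs_mul, abs_of_pos hμ.1]
  have hμ2 := hμ.2
  have hμ0 := hμ.1
  have b1 : μ * |q h κ t x - x ^ 2| ≤ 2 * (2 * h) := by gcongr
  have b2 : μ * |2 * x * Q' h κ t (x ^ 2) - 2 * x| ≤ 2 * (4 * √(2 * h) * (1 + L)) := by gcongr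
  linarith

lemma g_kneading (hh : 0 < h) (hκ : 0 < κ) (ht : 0 < t) (htκ : t ≤ κ) {μ : ℝ}
    (hμ : μ ∈ Ioc (0:ℝ) 2) : ∃ s, EvSign (g h κ t μ) (μ - 1) s ∧ IsKneading (g h κ t μ) 0 (knead s) := by
  have hv : g h κ t μ 0 = μ - 1 := by unfold g; rw [q_zero hh]; ring
  obtain ⟨s, hs⟩ := exists_evSign (g_continuous hκ μ) (g_strictMonoOn hh hκ ht htκ hμ.1)
    (g_strictAntiOn hh hκ ht htκ hμ.1) (μ - 1)
  refine ⟨s, hs, ?_⟩
  refine isKneading_of_evSign (g_hasDerivAt hh hκ μ) (g_deriv_sign hh hκ ht htκ hμ.1) ?_ ?_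
  · rw [hv]; exact ⟨by linarith [hμ.1], by linarith [hμ.2]⟩
  · rw [hv]; exact hs

end

/-- the sign pattern of the first block -/
lemma prod_pattern (N : ℕ) (s : ℕ → SignType)
    (hs : ∀ j, j ≤ 2 * N + 2 → s j = if j = 0 ∨ j = N + 2 then 1 else -1) :
    ∏ j ∈ Finset.range (2 * N + 3), (-(s j)) = 1 := by
  have e : ∏ j ∈ Finset.range (2 * N + 3), (-(s j))
      = ∏ j ∈ Finset.range (2 * N + 3), (if j = 0 ∨ j = N + 2 then (-1 : SignType) else 1) := by
    refine Finset.prod_congr rfl (fun j hj => ?_)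
    rw [hs j (by have := Finset.mem_range.1 hj; omega)]
    split_ifs <;> rfl
  rw [e, show 2 * N + 3 = (N + 2) + (N + 1) by ring, Finset.prod_range_add]
  have e1 : ∏ j ∈ Finset.range (N + 2), (if j = 0 ∨ j = N + 2 then (-1 : SignType) else 1) = -1 := by
    rw [show N + 2 = (N + 1) + 1 by ring, Finset.prod_range_succ', Finset.prod_eq_one]
    · simp
    · intro j hj
      have := Finset.mem_range.1 hj
      rw [if_neg (by omega)]
  have e2 : ∏ j ∈ Finset.range (N + 1),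
      (if N + 2 + j = 0 ∨ N + 2 + j = N + 2 then (-1 : SignType) else 1) = -1 := by
    rw [Finset.prod_range_succ', Finset.prod_eq_one]
    · simp
    · intro j hj
      rw [if_neg (by omega)]
  rw [e1, e2]; rfl

lemma choice {h : ℝ} (hh : 0 < h) : ∃ X : ℝ, 0 < X ∧ X < π ^ 2 / 8 ∧
    ∀ Y, X ≤ Y → Y ≤ π ^ 2 / 8 → cos (√(2 * Y)) ^ 2 < h := by
  have hπ := Real.pi_pos
  have hc : Continuous (fun Y : ℝ => cos (√(2 * Y)) ^ 2) :=
    (continuous_cos.comp (continuous_sqrt.comp (continuous_const.mul continuous_id))).pow 2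
  have hval : cos (√(2 * (π ^ 2 / 8))) ^ 2 = 0 := by
    have : (2 * (π ^ 2 / 8)) = (π / 2) ^ 2 := by ring
    rw [this, sqrt_sq (by positivity), cos_pi_div_two]; norm_num
  have hev : ∀ᶠ Y in 𝓝 (π ^ 2 / 8), cos (√(2 * Y)) ^ 2 < h := by
    apply (hc.tendsto _).eventually (gt_mem_nhds _)
    show cos (√(2 * (π ^ 2 / 8))) ^ 2 < h
    rw [hval]; exact hh
  obtain ⟨b, hb, hb2⟩ := Metric.eventually_nhds_iff.1 hev
  refine ⟨max (π ^ 2 / 16) (π ^ 2 / 8 - b / 2), lt_max_of_lt_left (by positivity),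
    max_lt (by nlinarith [sq_nonneg π, hπ]) (by linarith), ?_⟩
  intro Y h1 h2
  have h3 : π ^ 2 / 8 - b / 2 ≤ Y := (le_max_right _ _).trans h1
  apply hb2
  rw [Real.dist_eq, abs_lt]; constructor <;> linarith

/-- cosine comparison at `π²/8` -/
lemma cos_sqrt_pos {X : ℝ} (hX : X < π ^ 2 / 8) : 0 < cos (√(2 * X)) := by
  have hπ := Real.pi_pos
  apply cos_pos_of_mem_Ioo
  constructor
  · have := sqrt_nonneg (2 * X); linarith
  · rw [← sqrt_sq (show 0 ≤ π / 2 by positivity)]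
    apply sqrt_lt_sqrt_iff_of_pos (by positivity) |>.2
    nlinarith

lemma cos_sqrt_neg {X : ℝ} (hX : π ^ 2 / 8 < X) (hX2 : X < 2) : cos (√(2 * X)) < 0 := by
  have hπ := Real.pi_pos
  apply cos_neg_of_pi_div_two_lt_of_lt
  · rw [← sqrt_sq (show 0 ≤ π / 2 by positivity)]
    apply sqrt_lt_sqrt (by positivity)
    nlinarith
  · have h1 : √(2 * X) < 2 := by
      rw [show (2:ℝ) = √(2 ^ 2) by rw [sqrt_sq (by norm_num)]]
      apply sqrt_lt_sqrt
      · rw [sqrt_sq (by norm_num)]; nlinarith [sq_nonneg π]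
      · rw [sqrt_sq (by norm_num)]; linarith
    have := Real.pi_gt_three
    linarith


lemma knead_last (N : ℕ) (s : ℕ → SignType)
    (hs : ∀ j, j ≤ 2 * N + 2 → s j = if j = 0 ∨ j = N + 2 then 1 else -1) :
    knead s (2 * N + 3) = ((-(s (2 * N + 3)) : SignType) : ℤ) := by
  unfold knead
  rw [Finset.prod_range_succ, prod_pattern N s hs, one_mul]

/-- eventual facts for a parameter sequence `mu X N` -/
lemma eventual_facts {h κ τ X : ℝ} (hh : 0 < h) (hκ : 0 < κ) (hτ : 0 < τ) (hX : 0 < X)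
    (hX2 : X < π ^ 2 / 8) (hb : cos (√(2 * X)) ^ 2 < h) (hXτ : X + 8 * τ < 2) :
    (∀ᶠ N in atTop, 1 / 2 ≤ mu X N - 1 ∧ 4 ^ (N - 1) * F (mu X N) (mu X N) ≤ 1 / 2) ∧
    (∀ᶠ N in atTop, (F (mu X N))^[N] (F (mu X N) (mu X N)) - 1 < 0) ∧
    (∀ᶠ N in atTop,
      1 / 2 ≤ mu X N * (1 - q h κ (τ * (1 / 4) ^ N)
        ((F (mu X N))^[N] (F (mu X N) (mu X N)) - 1)) - 1 ∧
      4 ^ (N - 1) * F (mu X N) (mu X N * (1 - q h κ (τ * (1 / 4) ^ N)
        ((F (mu X N))^[N] (F (mu X N) (mu X N)) - 1))) ≤ 1 / 2) ∧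
    Tendsto (fun N => (F (mu X N))^[N] (F (mu X N) (mu X N * (1 - q h κ (τ * (1 / 4) ^ N)
        ((F (mu X N))^[N] (F (mu X N) (mu X N)) - 1))))) atTop
      (𝓝 (1 - cos (√(2 * (X + 8 * (τ * (cos (√(2 * X)) ^ 2 / (cos (√(2 * X)) ^ 2 + κ)))))))) := by
  set b := cos (√(2 * X)) with hbdef
  have hbpos : 0 < b := cos_sqrt_pos hX2
  have r0 := return_tendsto (X := X) (P := 0) (p := fun _ => 0) hX.le (by linarith) (by simp)
    (Eventually.of_forall fun _ => le_rfl)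
  simp only [sub_zero, mul_one, mul_zero, add_zero] at r0
  obtain ⟨r1, r2⟩ := r0
  rw [← hbdef] at r1
  set a : ℕ → ℝ := fun N => (F (mu X N))^[N] (F (mu X N) (mu X N)) - 1 with hadef
  have ha : Tendsto a atTop (𝓝 (-b)) := by
    have := r1.sub_const 1
    have e : 1 - b - 1 = -b := by ring
    rw [e] at this
    exact this
  have ha0 : ∀ᶠ N in atTop, a N < 0 := ha.eventually (gt_mem_nhds (by linarith))
  have ha2 : ∀ᶠ N in atTop, (a N) ^ 2 < h := by
    refine (ha.pow 2).eventually (gt_mem_nhds ?_)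
    rw [neg_sq]; exact hb
  have hp : Tendsto (fun N => 4 ^ N * q h κ (τ * (1 / 4) ^ N) (a N)) atTop
      (𝓝 (τ * (b ^ 2 / (b ^ 2 + κ)))) := by
    have h1 : Tendsto (fun N => τ * ((a N) ^ 2 / ((a N) ^ 2 + κ))) atTop
        (𝓝 (τ * ((-b) ^ 2 / ((-b) ^ 2 + κ)))) :=
      ((ha.pow 2).div ((ha.pow 2).add_const κ) (by positivity)).const_mul τ
    rw [neg_sq] at h1
    refine h1.congr' ?_
    filter_upwards [ha2] with N hN
    rw [q_eq_small hh hN.le]
    have h4 : (4:ℝ) ^ N * (1 / 4) ^ N = 1 := by rw [← mul_pow]; norm_num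
    calc τ * ((a N) ^ 2 / ((a N) ^ 2 + κ))
        = (4 ^ N * (1 / 4) ^ N) * (τ * ((a N) ^ 2 / ((a N) ^ 2 + κ))) := by rw [h4, one_mul]
      _ = _ := by ring
  have hq0 : ∀ᶠ N in atTop, 0 ≤ q h κ (τ * (1 / 4) ^ N) (a N) :=
    Eventually.of_forall fun N => q_nonneg hκ (by positivity) h _
  have hle : b ^ 2 / (b ^ 2 + κ) ≤ 1 := by
    rw [div_le_one (by positivity)]; linarith
  have hlt : X + 8 * (τ * (b ^ 2 / (b ^ 2 + κ))) < 2 := by
    have : τ * (b ^ 2 / (b ^ 2 + κ)) ≤ τ * 1 := by gcongr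
    linarith
  obtain ⟨s1, s2⟩ := return_tendsto (X := X) hX.le hlt hp hq0
  exact ⟨r2, ha0, s2, s1⟩

/-- **Non-monotone kneading arbitrarily `C^1`-close to the quadratic family.** -/
theorem result : ∀ ε : ℝ, 0 < ε → ∃ g : ℝ → ℝ → ℝ,
    IsFamily g ∧ ContDiff ℝ ∞ (fun p : ℝ × ℝ => g p.2 p.1) ∧
    c1Dist g quad < ENNReal.ofReal ε ∧
    ∃ ν : ℝ → ℕ → ℤ, IsKneadingMap g ν ∧ ¬ IsMonotone ν := by
  intro ε hε
  obtain ⟨L, hL0, hL⟩ := exists_bound_deriv_smoothTransition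
  -- choice of `h`
  obtain ⟨h, hh, hh8, hhε⟩ : ∃ h : ℝ, 0 < h ∧ h ≤ 1 / 8 ∧
      6 * h + 8 * √(2 * h) * (1 + L) < ε := by
    have hc : Continuous (fun h : ℝ => 6 * h + 8 * √(2 * h) * (1 + L)) := by fun_prop
    have h0 : (6:ℝ) * 0 + 8 * √(2 * 0) * (1 + L) = 0 := by simp
    have hev : ∀ᶠ h in 𝓝 (0:ℝ), 6 * h + 8 * √(2 * h) * (1 + L) < ε := by
      apply (hc.tendsto 0).eventually (gt_mem_nhds _)
      show 6 * 0 + 8 * √(2 * 0) * (1 + L) < ε
      rw [h0]; exact hε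
    have h1 : ∀ᶠ h in 𝓝[>] (0:ℝ), 6 * h + 8 * √(2 * h) * (1 + L) < ε := hev.filter_mono nhdsWithin_le_nhds
    have h2 : ∀ᶠ h in 𝓝[>] (0:ℝ), h ∈ Ioc (0:ℝ) (1/8) := Ioc_mem_nhdsGT (by norm_num)
    obtain ⟨h, a, b⟩ := (h1.and h2).exists
    exact ⟨h, b.1, b.2, a⟩
  obtain ⟨X3, hX3, hX3', hcos⟩ := choice hh
  have hπ2 : π ^ 2 < 10 := by
    have h1 := Real.pi_lt_d2
    have h2 := Real.pi_pos
    nlinarith
  set wd := (π ^ 2 / 8 - X3) / 3 with hwd
  have hwd0 : 0 < wd := by rw [hwd]; linarith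
  have hX3eq : X3 = π ^ 2 / 8 - 3 * wd := by rw [hwd]; ring
  have hwdle : wd < 5 / 12 := by nlinarith
  set X2 := π ^ 2 / 8 - wd with hX2
  have hX2' : X2 < π ^ 2 / 8 := by rw [hX2]; linarith
  have hX32 : X3 < X2 := by rw [hX2]; linarith
  have hX20 : 0 < X2 := hX3.trans hX32
  set τ := 5 * wd / 16 with hτ
  have hτ0 : 0 < τ := by positivity
  set b2 := cos (√(2 * X2)) with hb2
  have hb20 : 0 < b2 := cos_sqrt_pos hX2'
  set κ := b2 ^ 2 / 2 with hκ
  have hκ0 : 0 < κ := by positivity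
  have f2 := eventual_facts (τ := τ) hh hκ0 hτ0 hX20 hX2' (hcos X2 hX32.le hX2'.le)
    (by rw [hX2, hτ]; linarith)
  have f3 := eventual_facts (τ := τ) hh hκ0 hτ0 hX3 hX3' (hcos X3 le_rfl hX3'.le)
    (by rw [hX3eq, hτ]; linarith)
  obtain ⟨a1, a2, a3, a4⟩ := f2
  obtain ⟨c1, c2, c3, c4⟩ := f3
  -- second return above / below the turning point
  have a5 : ∀ᶠ N in atTop, 1 < (F (mu X2 N))^[N] (F (mu X2 N) (mu X2 N * (1 - q h κ (τ * (1 / 4) ^ N)
        ((F (mu X2 N))^[N] (F (mu X2 N) (mu X2 N)) - 1)))) := by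
    refine a4.eventually (lt_mem_nhds ?_)
    rw [← hb2]
    have e : b2 ^ 2 / (b2 ^ 2 + κ) = 2 / 3 := by
      rw [hκ]; field_simp; ring
    rw [e]
    have := cos_sqrt_neg (X := X2 + 8 * (τ * (2 / 3))) (by rw [hX2, hτ]; linarith)
      (by rw [hX2, hτ]; linarith)
    linarith
  have c5 : ∀ᶠ N in atTop, (F (mu X3 N))^[N] (F (mu X3 N) (mu X3 N * (1 - q h κ (τ * (1 / 4) ^ N)
        ((F (mu X3 N))^[N] (F (mu X3 N) (mu X3 N)) - 1)))) < 1 := by
    refine c4.eventually (gt_mem_nhds ?_)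
    set b3 := cos (√(2 * X3)) with hb3
    have hb30 : 0 < b3 := cos_sqrt_pos hX3'
    have hle : b3 ^ 2 / (b3 ^ 2 + κ) ≤ 1 := by
      rw [div_le_one (by positivity)]; linarith
    have h1 : τ * (b3 ^ 2 / (b3 ^ 2 + κ)) ≤ τ * 1 := by gcongr
    have := cos_sqrt_pos (X := X3 + 8 * (τ * (b3 ^ 2 / (b3 ^ 2 + κ)))) (by
      rw [hX3eq]
      have : 8 * (τ * 1) = 5 * wd / 2 := by rw [hτ]; ring
      linarith)
    linarith
  have hτκ : ∀ᶠ N : ℕ in atTop, τ * (1 / 4) ^ N < κ := by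
    have := tendsto_quarter.const_mul τ
    rw [mul_zero] at this
    exact this.eventually (gt_mem_nhds hκ0)
  have hm2 : ∀ᶠ N in atTop, 0 < mu X2 N := (mu_tendsto X2).eventually (lt_mem_nhds (by norm_num))
  have hm3 : ∀ᶠ N in atTop, 0 < mu X3 N := (mu_tendsto X3).eventually (lt_mem_nhds (by norm_num))
  obtain ⟨N, ⟨d1, d1'⟩, d2, ⟨d3, d3'⟩, d5, ⟨e1, e1'⟩, e2, ⟨e3, e3'⟩, e5, htκ, hμ2pos, hμ3pos⟩ :=
    (a1.and (a2.and (a3.and (a5.and (c1.and (c2.and (c3.and (c5.and (hτκ.and (hm2.and hm3)))))))))).exists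
  set t := τ * (1 / 4) ^ N with ht
  have ht0 : 0 < t := by positivity
  have hμ2mem : mu X2 N ∈ Ioc (0:ℝ) 2 := ⟨hμ2pos, mu_le hX20.le N⟩
  have hμ3mem : mu X3 N ∈ Ioc (0:ℝ) 2 := ⟨hμ3pos, mu_le hX3.le N⟩
  have hμlt : mu X2 N < mu X3 N := by
    unfold mu
    have : (0:ℝ) < (1 / 4) ^ N := by positivity
    nlinarith
  -- signs for the two parameters
  obtain ⟨o1, o2⟩ := orbit_signs (κ := κ) (t := t) hh hh8 hμ2mem.1.le hμ2mem.2 N d1 d1' rfl d2
    (q_nonneg hκ0 ht0 h _) d3 d3'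
  obtain ⟨p1, p2⟩ := orbit_signs (κ := κ) (t := t) hh hh8 hμ3mem.1.le hμ3mem.2 N e1 e1' rfl e2
    (q_nonneg hκ0 ht0 h _) e3 e3'
  -- kneading sequences
  have hkn : ∀ μ : ℝ, ∃ s, μ ∈ Ioc (0:ℝ) 2 → EvSign (g h κ t μ) (μ - 1) s ∧
      IsKneading (g h κ t μ) 0 (knead s) := by
    intro μ
    by_cases hμ : μ ∈ Ioc (0:ℝ) 2
    · obtain ⟨s, hs⟩ := g_kneading hh hκ0 ht0 htκ.le hμ
      exact ⟨s, fun _ => hs⟩
    · exact ⟨fun _ => 0, fun h => absurd h hμ⟩
  choose s hs using hkn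
  have hcont : ∀ μ, Continuous (g h κ t μ) := fun μ => g_continuous hκ0 μ
  refine ⟨g h κ t, ⟨fun μ hμ => ⟨0, g_unimodal hh hh8 hκ0 ht0 htκ.le hμ⟩,
    (g_contDiff hκ0 (n := 1)).contDiffOn⟩, g_contDiff hκ0, ?_, fun μ => knead (s μ), ?_, ?_⟩
  · refine (g_c1Dist hh hκ0 ht0 htκ.le hL0 hL).trans_lt ?_
    exact (ENNReal.ofReal_lt_ofReal_iff hε).2 hhε
  · intro μ hμ c hc
    have : c = 0 := unimodal_unique hc (g_unimodal hh hh8 hκ0 ht0 htκ.le hμ)
    subst this
    exact (hs μ hμ).2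
  · -- values of the signs
    have sne : ∀ μ (hμ : μ ∈ Ioc (0:ℝ) 2) j, (g h κ t μ)^[j] (μ - 1) ≠ 0 →
        s μ j = SignType.sign ((g h κ t μ)^[j] (μ - 1)) :=
      fun μ hμ j hj => sign_ne_zero_of (hcont μ) (hs μ hμ).1 hj
    have hsgn_ne : ∀ {x : ℝ} {c : Prop} [Decidable c],
        SignType.sign x = (if c then 1 else -1) → x ≠ 0 := by
      intro x c _ hx h0
      rw [h0, _root_.sign_zero] at hx
      split_ifs at hx <;> exact absurd hx (by decide)
    have s2 : ∀ j, j ≤ 2 * N + 2 → s (mu X2 N) j = if j = 0 ∨ j = N + 2 then 1 else -1 := by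
      intro j hj
      rw [sne _ hμ2mem j (hsgn_ne (o1 j hj)), o1 j hj]
    have s3 : ∀ j, j ≤ 2 * N + 2 → s (mu X3 N) j = if j = 0 ∨ j = N + 2 then 1 else -1 := by
      intro j hj
      rw [sne _ hμ3mem j (hsgn_ne (p1 j hj)), p1 j hj]
    have s2' : s (mu X2 N) (2 * N + 3) = 1 := by
      have hpos : 0 < (g h κ t (mu X2 N))^[2 * N + 3] (mu X2 N - 1) := by rw [o2]; linarith
      rw [sne _ hμ2mem _ hpos.ne', sign_pos hpos]
    have s3' : s (mu X3 N) (2 * N + 3) = -1 := by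
      have hneg : (g h κ t (mu X3 N))^[2 * N + 3] (mu X3 N - 1) < 0 := by rw [p2]; linarith
      rw [sne _ hμ3mem _ hneg.ne, sign_neg hneg]
    have lex1 : LexLT (knead (s (mu X2 N))) (knead (s (mu X3 N))) := by
      refine ⟨2 * N + 3, ?_, ?_⟩
      · intro i hi
        unfold knead
        congr 1
        refine Finset.prod_congr rfl (fun j hj => ?_)
        have := Finset.mem_range.1 hj
        rw [s2 j (by omega), s3 j (by omega)]
      · rw [knead_last N _ s2, knead_last N _ s3, s2', s3']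
        decide
    have lex2 : LexLT (knead (s 2)) (knead (s (1 / 2))) := by
      refine ⟨0, fun i hi => absurd hi (Nat.not_lt_zero i), ?_⟩
      have h2 : s 2 0 = 1 := by
        rw [sne 2 ⟨by norm_num, le_rfl⟩ 0 (by norm_num)]
        simp only [Function.iterate_zero, id]
        exact sign_pos (by norm_num)
      have h1 : s (1 / 2) 0 = -1 := by
        rw [sne (1 / 2) ⟨by norm_num, by norm_num⟩ 0 (by norm_num)]
        simp only [Function.iterate_zero, id]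
        exact sign_neg (by norm_num)
      unfold knead
      rw [zero_add, Finset.prod_range_one, Finset.prod_range_one, h2, h1]
      decide
    rintro (hmono | hmono)
    · exact lex2.not_le (hmono (1 / 2) ⟨by norm_num, by norm_num⟩ 2 ⟨by norm_num, le_rfl⟩
        (by norm_num))
    · exact lex1.not_le (hmono _ hμ2mem _ hμ3mem hμlt.le)

end Pool.Agent.Results.MP_ace4dd_an.NonMonotone
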